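import Pool.Agent.helper84.FS.SpecF

/-!
# Project FS, row LFU: unions in the leaf condition
-/

open scoped MatrixGroups ContDiff Topology UpperHalfPlane ComplexConjugate
open UpperHalfPlane MeasureTheory Filter Set

set_option autoImplicit false

namespace Pool.Agent.FS

open Pool.Agent.RS
open Pool.Agent.MS (bq BB BA SF pf)
open Pool.Agent.EN (XG MG mkX mkM fl pr)

noncomputable section

/-- the integral over a subset of a union (no measurability) -/
theorem LFU_union (f : ℝ → ℝ) (hf : ∀ v, 0 ≤ f v) (K : Set ℝ) (hK : IntegrableOn f K) (A : ℕ → Set ℝ) (hA : ∀ k, A k ⊆ K) (m : ℕ) :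
    ∀ S : Set ℝ, (∀ v ∈ S, ∃ k < m, v ∈ A k) → ∫ v in S, f v ≤ ∑ k ∈ Finset.range m, ∫ v in A k, f v := by
  induction m with
  | zero =>
    intro S hS
    have h : S = ∅ := by
      ext v
      constructor
      · intro hv
        obtain ⟨k, hk, -⟩ := hS v hv
        omega
      · intro hv
        exact absurd hv (notMem_empty v)
    rw [h]
    simp
  | succ m ih =>
    intro S hS
    set U : Set ℝ := {v | ∃ k < m, v ∈ A k} with hU
    have hUK : U ⊆ K := by
      rintro v ⟨k, -, hk⟩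
      exact hA k hk
    have h1 : S ⊆ U ∪ A m := by
      intro v hv
      obtain ⟨k, hk, hk'⟩ := hS v hv
      rcases Nat.lt_succ_iff_lt_or_eq.1 hk with h | h
      · exact Or.inl ⟨k, h, hk'⟩
      · subst h
        exact Or.inr hk'
    have hint1 : Integrable f (volume.restrict U) := hK.mono_set hUK
    have hint2 : Integrable f (volume.restrict (A m)) := hK.mono_set (hA m)
    have h2 : ∫ v in S, f v ≤ ∫ v in U ∪ A m, f v :=
      setIntegral_mono_set (hK.mono_set (union_subset hUK (hA m))) (Filter.Eventually.of_forall hf) (Filter.Eventually.of_forall h1)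
    have h3 : ∫ v in U ∪ A m, f v ≤ (∫ v in U, f v) + ∫ v in A m, f v := by
      rw [← integral_add_measure hint1 hint2]
      exact integral_mono_measure (Measure.restrict_union_le U (A m)) (Filter.Eventually.of_forall hf) (hint1.add_measure hint2)
    rw [Finset.sum_range_succ]
    have h4 := ih U (fun v hv => hv)
    linarith

theorem LFU_proof : LFU_stmt := by
  classical
  intro m Ψ Ψ' Ψs Ψs' n εc l0 q hq hΨ hΨ' hL l g g' J c hl hl0 hJ
  -- the witnesses
  have hw : ∀ j ∈ J, ∃ k < m, IR.JC {h | Ψs' k (h * aM (-n)) ≠ 0} εc l l0 g j := by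
    intro j hj
    obtain ⟨h1, u, hu, x, τ, o, e, he, hx, hτ, ho, hmem⟩ := hJ j hj
    obtain ⟨k, hk, hk'⟩ := hΨ' _ hmem
    exact ⟨k, hk, h1, u, hu, x, τ, o, e, he, hx, hτ, ho, hk'⟩
  choose! κ hκ1 hκ2 using hw
  set F : Finset ℤ → ℝ → ℂ := fun I v => ∑ j ∈ I, c j * Complex.exp (((Real.pi * j * v / 2 : ℝ) : ℂ) * Complex.I) with hF
  have hFc : ∀ I, Continuous (F I) := by
    intro I
    rw [hF]
    fun_prop
  have hFint : ∀ (I : Finset ℤ), IntegrableOn (fun v => ‖F I v‖ ^ 2) (Icc (0 : ℝ) 1) := fun I =>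
    ((hFc I).norm.pow 2).continuousOn.integrableOn_compact isCompact_Icc
  set A : ℕ → Set ℝ := fun k => Icc (0 : ℝ) 1 ∩ {v | Ψs k (g' * lM v) ≠ 0} with hA
  have hsum : ∀ v, F J v = ∑ k ∈ Finset.range m, F (J.filter fun j => κ j = k) v := by
    intro v
    exact (Finset.sum_fiberwise_of_maps_to (fun j hj => Finset.mem_range.2 (hκ1 j hj)) _).symm
  have hpt : ∀ v, ‖F J v‖ ^ 2 ≤ m * ∑ k ∈ Finset.range m, ‖F (J.filter fun j => κ j = k) v‖ ^ 2 := by
    intro v
    rw [hsum]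
    calc ‖∑ k ∈ Finset.range m, F (J.filter fun j => κ j = k) v‖ ^ 2 ≤ (∑ k ∈ Finset.range m, ‖F (J.filter fun j => κ j = k) v‖) ^ 2 := by
          gcongr
          exact norm_sum_le _ _
      _ ≤ (Finset.range m).card * ∑ k ∈ Finset.range m, ‖F (J.filter fun j => κ j = k) v‖ ^ 2 := sq_sum_le_card_mul_sum_sq
      _ = _ := by rw [Finset.card_range]
  show ∫ v in Icc (0 : ℝ) 1 ∩ {v | Ψ (g' * lM v) ≠ 0}, ‖F J v‖ ^ 2 ≤ (m : ℝ) ^ 2 * q * ∑ j ∈ J, ‖c j‖ ^ 2
  have h1 := LFU_union (fun v => ‖F J v‖ ^ 2) (fun v => sq_nonneg _) (Icc (0 : ℝ) 1) (hFint J) A (fun k => inter_subset_left) m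
    (Icc (0 : ℝ) 1 ∩ {v | Ψ (g' * lM v) ≠ 0}) (fun v hv => by
      obtain ⟨k, hk, hk'⟩ := hΨ _ hv.2
      exact ⟨k, hk, hv.1, hk'⟩)
  refine h1.trans ?_
  have h2 : ∀ k ∈ Finset.range m, ∫ v in A k, ‖F J v‖ ^ 2 ≤ m * (q * ∑ j ∈ J, ‖c j‖ ^ 2) := by
    intro k hk
    have hAk : A k ⊆ Icc (0 : ℝ) 1 := inter_subset_left
    have h3 : ∫ v in A k, ‖F J v‖ ^ 2 ≤ ∫ v in A k, m * ∑ i ∈ Finset.range m, ‖F (J.filter fun j => κ j = i) v‖ ^ 2 := by
      refine setIntegral_mono ((hFint J).mono_set hAk) ?_ hpt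
      refine Integrable.const_mul ?_ _
      exact integrable_finset_sum _ fun i _ => (hFint _).mono_set hAk
    refine h3.trans ?_
    rw [integral_const_mul, integral_finset_sum _ fun i _ => (hFint _).mono_set hAk]
    refine mul_le_mul_of_nonneg_left ?_ (Nat.cast_nonneg m)
    have h4 : ∀ i ∈ Finset.range m, ∫ v in A k, ‖F (J.filter fun j => κ j = i) v‖ ^ 2 ≤ q * ∑ j ∈ J.filter (fun j => κ j = i), ‖c j‖ ^ 2 := by
      intro i hi
      refine hL k (Finset.mem_range.1 hk) i (Finset.mem_range.1 hi) l g g' (J.filter fun j => κ j = i) c hl hl0 fun j hj => ?_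
      obtain ⟨hj1, hj2⟩ := Finset.mem_filter.1 hj
      rw [← hj2]
      exact hκ2 j hj1
    refine (Finset.sum_le_sum h4).trans (le_of_eq ?_)
    rw [← Finset.mul_sum, Finset.sum_fiberwise_of_maps_to (fun j hj => Finset.mem_range.2 (hκ1 j hj))]
  refine (Finset.sum_le_sum h2).trans (le_of_eq ?_)
  rw [Finset.sum_const, Finset.card_range, nsmul_eq_mul]
  ring

end

end Pool.Agent.FS
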